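import Pool.Agent.helper20.FX.Spec
import Pool.Agent.helper42.FX.MAI
import Pool.Agent.helper22.FX.WINR
import Pool.Agent.helper91.FX.GDC
import Pool.Agent.helper87.FX.SMP
import Pool.Agent.helper87.FX.LRG
import Pool.Agent.helper84.FX.ODC
import Pool.Agent.helper86.FX.BAD
import Pool.Agent.helper65.FX.WIN
import Pool.Agent.helper50.FX.LI
import Pool.Agent.helper26.FX.LGI
import Pool.Agent.helper65.FX.PRM
import Pool.Agent.helper65.FX.GLG
import Pool.Agent.helper95.FX.REL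
import Pool.Agent.helper98.FX.PRB
import Pool.Agent.helper82.FX.LGC
import Pool.Agent.helper55.FX.BLK

/-!
# Project fm: all statements are proved
-/

set_option autoImplicit false

namespace Pool.Agent.FXM

open Finset

theorem t_PRB : PRB_stmt := PRB
theorem t_PRM : PRM_stmt := PRM
theorem t_LGI : LGI_stmt := LGI
theorem t_LGC : LGC_stmt := LGC t_PRM
theorem t_LI : LI_stmt := LI t_LGI t_LGC
theorem t_REL : REL_stmt := REL
theorem t_WIN : WIN_stmt := WIN t_LI t_REL t_PRB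
theorem t_WINR : WINR_stmt := WINR t_WIN t_PRB
theorem t_BAD : BAD_stmt := BAD
theorem t_GDC : GDC_stmt := GDC t_WINR
theorem t_BLK : BLK_stmt := BLK t_GDC t_BAD t_REL
theorem t_GLG : GLG_stmt := GLG
theorem t_MAI : MAI_stmt := MAI t_BLK t_GLG t_REL
theorem t_SMP : SMP_stmt := SMP t_MAI t_GLG
theorem t_LRG : LRG_stmt := LRG t_REL
theorem t_ODC : ODC_stmt := ODC t_SMP t_LRG

/-- the main theorem for arbitrary finite sets of exponents and `2 ^ M + 1` -/
theorem main (ε : ℝ) (hε : 0 < ε) : ∃ C : ℝ, 0 < C ∧ ∀ (M k : ℕ) (U : Finset ℕ), Odd k → 1 < k →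
    0 < M → (∀ n ∈ U, k * 2 ^ n + 1 ∣ 2 ^ M + 1) →
    (U.card : ℝ) ≤ C * ((M : ℝ) * Real.log k) ^ (2 / 5 + ε) ∧
      ∑ n ∈ U, (n : ℝ) ≤ C * ((M : ℝ) * Real.log k) ^ (5 / 6 + ε) := by
  obtain ⟨C, hC, h⟩ := t_MAI ε hε
  have hl2 : 0 < Real.log 2 := Real.log_pos (by norm_num)
  have hl21 : Real.log 2 ≤ 1 := by
    have := Real.log_two_lt_d9
    linarith
  obtain ⟨D, hD⟩ : ∃ D, D = (Real.log 2)⁻¹ := ⟨_, rfl⟩
  have hD1 : 1 ≤ D := by
    rw [hD]
    exact (one_le_inv₀ hl2).2 hl21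
  refine ⟨C * D ^ (1 + ε), by positivity, ?_⟩
  intro M k U hk hk1 hM hU
  have hk3 : 3 ≤ k := by
    obtain ⟨j, hj⟩ := hk
    omega
  obtain ⟨h1, h2⟩ := h k M hk hk3
  have hsub : U ⊆ SS k M := by
    intro n hn
    have hd := hU n hn
    have hle := Nat.le_of_dvd (by positivity) hd
    have hn0 : n ≠ 0 := by
      rintro rfl
      rw [pow_zero, mul_one] at hd
      have h4 : Even (k + 1) := hk.add_one
      have h5 : Even (2 ^ M + 1) := h4.trans_dvd hd
      have h6 : Odd (2 ^ M + 1) := Even.add_one (Nat.even_pow.2 ⟨even_two, by omega⟩)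
      exact (Nat.not_even_iff_odd.2 h6) h5
    have hnM : n ≤ M := by
      have h7 : 2 ^ n ≤ 2 ^ M := by nlinarith [Nat.one_le_two_pow (n := n)]
      exact (Nat.pow_le_pow_iff_right (by norm_num)).1 h7
    rw [SS, Finset.mem_filter, Finset.mem_Icc]
    exact ⟨⟨by omega, hnM⟩, hd⟩
  have hX : XX k M = D * ((M : ℝ) * Real.log k) := by
    rw [XX, Real.logb, hD]
    field_simp
  have hkR : (0 : ℝ) ≤ Real.log k := Real.log_nonneg (by exact_mod_cast hk1.le)
  have hY : (0 : ℝ) ≤ (M : ℝ) * Real.log k := by positivity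
  have key : ∀ e : ℝ, 0 ≤ e → e ≤ 1 + ε → C * XX k M ^ e ≤
      C * D ^ (1 + ε) * ((M : ℝ) * Real.log k) ^ e := by
    intro e he he1
    rw [hX, Real.mul_rpow (by linarith) hY, mul_assoc]
    refine mul_le_mul_of_nonneg_left ?_ hC.le
    exact mul_le_mul_of_nonneg_right (Real.rpow_le_rpow_of_exponent_le hD1 he1)
      (Real.rpow_nonneg hY _)
  constructor
  · refine le_trans ?_ (h1.trans (key _ (by linarith) (by linarith)))
    exact_mod_cast Finset.card_le_card hsub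
  · refine le_trans ?_ (h2.trans (key _ (by linarith) (by linarith)))
    exact Finset.sum_le_sum_of_subset_of_nonneg hsub (fun _ _ _ => Nat.cast_nonneg _)

end Pool.Agent.FXM
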