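import Mathlib

set_option autoImplicit false

/-!
# Project fm: fixed multipliers of divisors of `2 ^ M + 1` (MP_37e5fa_nt, MP_a70bdc_nt)

For an odd `k ≥ 3` let `S` be the set of all `n ≥ 1` such that `D n := k * 2 ^ n + 1` divides
`2 ^ M + 1`, let `L := log₂ k`, `X := M * L`, `q n := M / n`, `r n := M % n`.

MAIN THEOREM: `|S| ≤ C X ^ (2/5 + ε)` and `∑_{n ∈ S} n ≤ C X ^ (5/6 + ε)`.
COROLLARY: for composite `2 ^ M + 1`, `log₂ (odd part of φ (2 ^ M + 1)) ≥ c √(M log M)`.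

Idea.  Modulo `D n` one has `2 ^ M ≡ -1` and `k 2 ^ n ≡ -1`, hence
`D n ∣ e n := k ^ (q n) + (-1) ^ (q n) 2 ^ (r n)`, an odd number if `r n ≥ 1`.
On a short window of exponents `n` the numbers `1 / D n` are interpolated by Lagrange's formula
with nodes `- 2 ^ (-n)`; the coefficients, multiplied by `Pr d = ∏_{j < d} (2 ^ (j+1) - 1)`, are
integers `A n` with `∑ A n / D n = Pr d / ∏ D n`.  The integer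
`Z = ∑ A n k ^ (Q - q n) (e n / D n)` is small if the window contains many `n`, but it is
nonzero because `Z ∏ D n ≡ Pr d ≡ 1 (mod 2)`.
-/

namespace Pool.Agent.FXM

open Finset

/-- the exponents `1 ≤ n ≤ M` for which `k * 2 ^ n + 1` divides `2 ^ M + 1` -/
def SS (k M : ℕ) : Finset ℕ := (Icc 1 M).filter (fun n => k * 2 ^ n + 1 ∣ 2 ^ M + 1)

/-- `Pr d = ∏_{j < d} (2 ^ (j + 1) - 1)` -/
def Pr (d : ℕ) : ℕ := ∏ j ∈ range d, (2 ^ (j + 1) - 1)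

/-- `X = M * log₂ k` -/
noncomputable def XX (k M : ℕ) : ℝ := (M : ℝ) * Real.logb 2 k

/-- PRB (short). Uses: nothing.
Proof. Each factor `2 ^ (j+1) - 1` is odd and lies between `1` and `2 ^ (j+1)`; the sum of
`j + 1` over `j < d` is `d (d+1) / 2`. Induction on `d` (`Finset.prod_range_succ`); for the last
part `2 ^ (d (d+1) / 2) * 2 ^ (d+1) = 2 ^ ((d+1) (d+2) / 2)` (real exponents,
`Real.rpow_add`, `Real.rpow_natCast`). -/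
def PRB_stmt : Prop :=
  ∀ d : ℕ, Odd (Pr d) ∧ 1 ≤ Pr d ∧ ((Pr d : ℕ) : ℝ) ≤ (2 : ℝ) ^ ((d : ℝ) * (d + 1) / 2)

/-- PRM (short/medium). Uses: nothing.
Proof. Strong induction on `a + b` (or: for all `s`, for all `a b` with `a + b = s`).
If `a = 0` or `b = 0`: `Pr 0 = 1`. Otherwise `a = a' + 1`, `b = b' + 1` and, with
`w = 2 ^ (a+b) - 1`, one has `w = (2 ^ a - 1) + 2 ^ a (2 ^ b - 1)` and
`Pr (a + b) = Pr (a + b - 1) * w`. By induction `Pr (a + b - 1) = g * (Pr a' * Pr b)` and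
`Pr (a + b - 1) = h * (Pr a * Pr b')`, so
`Pr (a + b) = g Pr a' Pr b (2 ^ a - 1) + 2 ^ a h Pr a Pr b' (2 ^ b - 1)
            = (g + 2 ^ a h) * (Pr a * Pr b)`
because `Pr a = Pr a' (2 ^ a - 1)` and `Pr b = Pr b' (2 ^ b - 1)`. -/
def PRM_stmt : Prop :=
  ∀ a b : ℕ, Pr a * Pr b ∣ Pr (a + b)

/-- LGI (short/medium). Uses: nothing.
Proof. Mathlib's `Lagrange.sum_basis` for the nodes `v j = -(2 ^ j)⁻¹ : ℚ` (injective), evaluated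
at `x`: `Lagrange.basis U v n = ∏_{j ∈ U.erase n} basisDivisor (v n) (v j)` and
`basisDivisor (v n) (v j)` evaluated at `x` is
`(v n - v j)⁻¹ (x - v j) = (x + 2 ^ (-j)) / (2 ^ (-j) - 2 ^ (-n))
 = (x 2 ^ j + 1) / (1 - 2 ^ j / 2 ^ n)`. -/
def LGI_stmt : Prop :=
  ∀ (U : Finset ℕ) (x : ℚ), U.Nonempty →
    ∑ n ∈ U, ∏ j ∈ U.erase n, ((x * 2 ^ j + 1) / (1 - (2 : ℚ) ^ j / 2 ^ n)) = 1

/-- LGC (medium). Uses: PRM.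
Proof. Fix `n ∈ U`. Split `U.erase n` into `H = {j ∈ U : n < j}` and `B = {j ∈ U : j < n}`.
For `j ∈ H`: `1 - 2 ^ j / 2 ^ n = -(2 ^ (j-n) - 1)`; for `j ∈ B`:
`1 - 2 ^ j / 2 ^ n = (2 ^ (n-j) - 1) / 2 ^ (n-j)`.
Put `h = ∏_{j ∈ H} (2 ^ (j-n) - 1)` and `b = ∏_{j ∈ B} (2 ^ (n-j) - 1)` (natural numbers `≥ 1`).
The numbers `j - n - 1` (`j ∈ H`) are distinct elements of `range (a + d - n)`, so
`h ∣ Pr (a + d - n)` (`Finset.prod_dvd_prod_of_subset` after `Finset.prod_image`);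
the numbers `n - j - 1` (`j ∈ B`) are distinct elements of `range (n - a)`, so `b ∣ Pr (n - a)`.
By PRM, `h * b ∣ Pr (a + d - n) * Pr (n - a) ∣ Pr d`; write `Pr d = h * b * g`. Then
`A := (-1) ^ |H| * 2 ^ (∑_{j ∈ B} (n - j)) * g` satisfies
`A * ∏_{j ∈ U.erase n} (1 - 2 ^ j / 2 ^ n) = g * h * b = Pr d`.
Size: `|A| * b * h = 2 ^ (∑_{j∈B} (n-j)) Pr d`, `h ≥ 1`, and
`2 ^ (n-j) ≤ 2 (2 ^ (n-j) - 1)` for `j ∈ B`, so `2 ^ (∑_{j∈B} (n-j)) ≤ 2 ^ |B| b`; hence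
`|A| ≤ 2 ^ |B| * Pr d ≤ 2 ^ |U| * Pr d`. -/
def LGC_stmt : Prop :=
  ∀ (a d : ℕ) (U : Finset ℕ), (∀ n ∈ U, a ≤ n ∧ n ≤ a + d) → ∀ n ∈ U,
    ∃ A : ℤ, (A : ℚ) * ∏ j ∈ U.erase n, (1 - (2 : ℚ) ^ j / 2 ^ n) = Pr d ∧
      |A| ≤ 2 ^ U.card * (Pr d : ℤ)

/-- LI (short). Uses: LGI, LGC.
Proof. Choose `A n` by LGC for `n ∈ U` (and `0` outside). For `n ∈ U` the product
`w n = ∏_{j ∈ U.erase n} (1 - 2 ^ j / 2 ^ n)` is nonzero (`j ≠ n`), so `A n = Pr d / w n` in `ℚ`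
and `A n * ∏_{j ∈ U.erase n} (k 2 ^ j + 1) = Pr d * ∏_{j ∈ U.erase n} ((k 2 ^ j + 1) /
(1 - 2 ^ j / 2 ^ n))` (`Finset.prod_div_distrib`); sum over `n` and use LGI with `x = k`;
cast back from `ℚ` to `ℤ` (`exact_mod_cast`). -/
def LI_stmt : Prop :=
  ∀ (a d : ℕ) (U : Finset ℕ), U.Nonempty → (∀ n ∈ U, a ≤ n ∧ n ≤ a + d) →
    ∃ A : ℕ → ℤ, (∀ n ∈ U, |A n| ≤ 2 ^ U.card * (Pr d : ℤ)) ∧
      ∀ k : ℤ, ∑ n ∈ U, A n * ∏ j ∈ U.erase n, (k * 2 ^ j + 1) = (Pr d : ℤ)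

/-- REL (medium). Uses: nothing.
Proof. Write `D = k 2 ^ n + 1`, `q = M / n`, `r = M % n`, `M = n q + r` (`Nat.div_add_mod`).
`D ≤ 2 ^ M + 1` gives `k 2 ^ n ≤ 2 ^ M`, so `2 ^ n < 2 ^ M` and `n < M`; hence `q ≥ 1`; `r < n`.
Modulo `D` (`Int.ModEq` or `Dvd`): `2 ^ M * k ^ q = 2 ^ r * (k 2 ^ n) ^ q ≡ 2 ^ r (-1) ^ q` and
`2 ^ M ≡ -1`, so `D ∣ k ^ q + (-1) ^ q 2 ^ r =: e`.
`e ≠ 0`: otherwise `k ^ q = 2 ^ r` with `k ^ q` odd and `≥ 3`: then `r = 0` and `k ^ q = 1`,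
a contradiction. So `D ≤ |e| ≤ k ^ q + 2 ^ r` (`Int.le_of_dvd` for `|e|`), and
`2 ^ r ≤ 2 ^ (n-1)`, `D ≥ 3 * 2 ^ n + 1`; hence `2 ^ n < k ^ q`.
Last part: `n < q L ≤ (M / n) L` (logarithm to base 2 of `2 ^ n < k ^ q`, and
`Nat.cast_div_le`), multiply by `n > 0`: `n ^ 2 < M L = XX k M`. -/
def REL_stmt : Prop :=
  ∀ k M n : ℕ, Odd k → 3 ≤ k → 1 ≤ n → k * 2 ^ n + 1 ∣ 2 ^ M + 1 →
    n < M ∧ ((k : ℤ) * 2 ^ n + 1 ∣ (k : ℤ) ^ (M / n) + (-1) ^ (M / n) * 2 ^ (M % n)) ∧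
      2 ^ n < k ^ (M / n) ∧ (n : ℝ) ^ 2 < XX k M

/-- WIN (medium). Uses: LI, REL, PRB. The parity window lemma.
Proof. `Q := M / a`; for `n ∈ U`, `n ≥ a ≥ 1` gives `M / n ≤ Q` (`Nat.div_le_div_left`).
In `ℤ`: `D n := k 2 ^ n + 1`, `e n := k ^ (M/n) + (-1) ^ (M/n) 2 ^ (M%n) = D n * f n` (REL), and
`A` from LI. Put `P := ∏_{n ∈ U} D n > 0`, `Z := ∑_{n ∈ U} A n * k ^ (Q - M/n) * f n` and
`P n := ∏_{j ∈ U.erase n} D j`, so `D n * P n = P` (`Finset.mul_prod_erase`). Then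
`Z * P = ∑ A n k ^ (Q - M/n) e n P n`                                               (1)
`= k ^ Q * Pr d + ∑ A n k ^ (Q - M/n) (-1) ^ (M/n) 2 ^ (M%n) P n`                    (2)
by `∑ A n P n = Pr d` (LI).
Parity: `e n` is odd (`k ^ _` odd, `2 ^ (M%n)` even because `M % n ≥ 1`) and `k ^ (Q - M/n)` is
odd, so by (1) `Z * P - Pr d = ∑ A n (k ^ (Q-M/n) e n - 1) P n` is even, and `Pr d` is odd (PRB);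
hence `Z ≠ 0`.
Size: let `c = |U| ≥ 1` and `w n := 2 |A n| k ^ (Q - M/n) 2 ^ (M%n)`. By hypothesis (ii) and
`|A n| ≤ 2 ^ c Pr d`, `c * w n < D n`, so `c * (w n * P n) < P`; summing over the `c` elements
`n ∈ U` (`Finset.sum_lt_sum_of_nonempty`), `c * ∑ w n P n < c * P`, i.e. `∑ w n P n < P`. By (2)
and hypothesis (i), `2 |Z| P ≤ 2 k ^ Q Pr d + ∑ w n P n < 2 P`, so `|Z| < 1`, `Z = 0`.
Contradiction. -/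
def WIN_stmt : Prop :=
  ∀ (k M a d : ℕ) (U : Finset ℕ), Odd k → 3 ≤ k → 1 ≤ a → U.Nonempty →
    (∀ n ∈ U, a ≤ n ∧ n ≤ a + d) → (∀ n ∈ U, k * 2 ^ n + 1 ∣ 2 ^ M + 1) →
    (∀ n ∈ U, 1 ≤ M % n) →
    2 * Pr d * k ^ (M / a) < ∏ n ∈ U, (k * 2 ^ n + 1) →
    (∀ n ∈ U, 2 * U.card * (2 ^ U.card * Pr d) * k ^ (M / a - M / n) * 2 ^ (M % n)
      < k * 2 ^ n + 1) → False

/-- WINR (medium). Uses: WIN, PRB.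
Proof. Let `L = log₂ k > 1`, `X = XX k M = M L`, `c = |U|`, `v = d (d+1) / 2`. Check the two size
hypotheses of WIN as real inequalities between powers of `2` (`k = 2 ^ L`, `Pr d ≤ 2 ^ v` by PRB).
(i) `2 Pr d k ^ (M/a) ≤ 2 ^ (1 + v + (M/a) L) ≤ 2 ^ (v + 1 + X/a) ≤ 2 ^ (c a)` (real exponents;
`(M/a : ℕ) ≤ M/a` in `ℝ`), and `∏_{n∈U} (k 2 ^ n + 1) > ∏_{n∈U} 2 ^ n ≥ ∏_{n∈U} 2 ^ a = 2 ^ (c a)`
(`Finset.prod_lt_prod_of_nonempty` and `Finset.prod_le_prod`).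
(ii) For `n ∈ U`: `(M/a : ℕ) ≤ M/a` and `(M/n : ℕ) > M/n - 1`, so
`((M/a - M/n : ℕ) : ℝ) ≤ M/a - M/n + 1 = M (n-a)/(a n) + 1 ≤ M d / a ^ 2 + 1`; `c ≤ 2 ^ c`. So the
left side of (ii) is at most `2 ^ (1 + 2 c + v + X d / a ^ 2 + L + M % n) ≤ 2 ^ (T + M%n + L)
≤ 2 ^ (n + L) = k 2 ^ n < k 2 ^ n + 1`. -/
def WINR_stmt : Prop :=
  ∀ (k M a d : ℕ) (U : Finset ℕ) (T : ℝ), Odd k → 3 ≤ k → 1 ≤ a → U.Nonempty →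
    (∀ n ∈ U, a ≤ n ∧ n ≤ a + d) → (∀ n ∈ U, k * 2 ^ n + 1 ∣ 2 ^ M + 1) →
    (d : ℝ) * (d + 1) / 2 + 1 + XX k M / a ≤ (U.card : ℝ) * a →
    1 + 2 * (U.card : ℝ) + (d : ℝ) * (d + 1) / 2 + XX k M * d / (a : ℝ) ^ 2 ≤ T →
    (∀ n ∈ U, 1 ≤ M % n ∧ ((M % n : ℕ) : ℝ) + T ≤ n) → False

/-- BAD (short/medium). Uses: nothing in this file, but the landed divisor bound
`Pool.Agent.helper47.RA.card_divisors_le (ε) (hε : 0 < ε) : ∃ C, 1 ≤ C ∧ ∀ n, 0 < n →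
(n.divisors.card : ℝ) ≤ C * n ^ ε` (import Pool.Agent.helper47.RA.Num).
Proof. For `n ∈ V` there is `t < T` with `n ∣ M + t`: if `M % n = 0` take `t = 0` (`T ≥ 1`);
otherwise take `t = n - M % n`, then `M + t = n (M / n) + n` and `t < T`. So
`V ⊆ (range T).biUnion (fun t => (M + t).divisors)` (`M + t ≥ n ≥ 1`), and
`|V| ≤ ∑_{t < T} d (M + t) ≤ ∑_{t<T} C (M + t) ^ ε ≤ C T (M + T) ^ ε`
(if `V` is empty the claim is clear; otherwise `M ≥ 1`). -/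
def BAD_stmt : Prop :=
  ∀ ε : ℝ, 0 < ε → ∃ C : ℝ, 0 < C ∧ ∀ (M T : ℕ) (V : Finset ℕ), 1 ≤ T →
    (∀ n ∈ V, 1 ≤ n ∧ n ≤ M ∧ (M % n = 0 ∨ n < M % n + T)) →
    (V.card : ℝ) ≤ C * T * ((M : ℝ) + T) ^ ε

/-- GDC (medium). Uses: WINR. Number of good exponents in a dyadic block.
Proof. Let `X = XX k M`, `z = (X / y) ^ (1/3)`, so `z ^ 2 = (X/y) ^ (2/3)`, `z ^ 3 = X / y`.
`y ^ 2 < X` gives `X / y > y ≥ 1`, `z > 1`, and `X / y ^ 2 > 1`. `X ^ (2/5) ≤ y` gives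
`X ≤ y ^ (5/2)`, `X / y ≤ y ^ (3/2)`, `z ^ 2 ≤ y`; hence `X / y ^ 2 = z ^ 3 / y ≤ z`.
Put `d = ⌈z⌉₊` (`z ≤ d ≤ z + 1 ≤ 2 z`) and `s = ⌈X / y ^ 2⌉₊ + 4` (`s ≤ X/y^2 + 5 ≤ 6 X/y^2`).
For `a ≥ y`:
`d (d+1)/2 + 1 + X/a ≤ (2 z ^ 2 + z + 1) + (X/a^2) a ≤ 4 z ^ 2 + (X/y^2) a ≤ (4 + X/y^2) a ≤ s a`
and
`1 + 2 s + d (d+1)/2 + X d / a ^ 2 ≤ 4 z ^ 2 + 12 X/y^2 + (X/y^2) (2 z) ≤ (4 + 12 + 2) z ^ 2
= 18 z ^ 2 =: T`.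
For `i : ℕ` the fibre `G i = {n ∈ G : (n - y) / d = i}` lies in `[a, a + d]`, `a = y + i d`. If
`|G i| ≥ s`, choose `U ⊆ G i` with `|U| = s` (`Finset.exists_subset_card_eq`), nonempty, and
WINR gives `False`. So `|G i| ≤ s`. The index `i = (n - y)/d` is at most `y / d`, so there are
at most `y/d + 1` fibres (`Finset.card_le_mul_card_image` or `Finset.card_eq_sum_card_fiberwise`)
and `|G| ≤ (y/d + 1) s ≤ (y/z + 1) s ≤ (2 y / z) (6 X/y^2) = 12 (X/y)/z = 12 z ^ 2`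
(`z ≤ z ^ 2 ≤ y`). -/
def GDC_stmt : Prop :=
  ∀ (k M y : ℕ) (G : Finset ℕ), Odd k → 3 ≤ k → 1 ≤ y → XX k M ^ (2 / 5 : ℝ) ≤ y →
    (y : ℝ) ^ 2 < XX k M →
    (∀ n ∈ G, y ≤ n ∧ n < 2 * y ∧ k * 2 ^ n + 1 ∣ 2 ^ M + 1 ∧ 1 ≤ M % n ∧
      ((M % n : ℕ) : ℝ) + 18 * (XX k M / y) ^ (2 / 3 : ℝ) ≤ n) →
    (G.card : ℝ) ≤ 12 * (XX k M / y) ^ (2 / 3 : ℝ)

/-- BLK (medium). Uses: GDC, BAD, REL.
Proof. Let `W` be the filtered set, `X = XX k M`. If `M = 0` then `SS k M = ∅`, the left side is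
`0` and the right side `≥ 0`. So let `M ≥ 1`; then `X ≥ M ≥ 1` (`log₂ k ≥ 1`), `X ^ ε ≥ 1`.
Case 1, `y ^ 2 ≥ X`: `W = ∅`, because `n ∈ W` gives `y ^ 2 ≤ n ^ 2 < X` (REL).
Case 2, `y ≤ X ^ (2/5)`: `|W| ≤ y` and `y ≤ (X/y) ^ (2/3)`, because
`y * y ^ (2/3) = y ^ (5/3) ≤ X ^ (2/3)`.
Case 3, `X ^ (2/5) < y` and `y ^ 2 < X`: let `z2 = (X/y) ^ (2/3)`; as in GDC `1 ≤ z2 ≤ y ≤ X`.
`T := ⌈18 z2⌉₊`, `1 ≤ T ≤ 19 z2`. Split `W` into `V = {n ∈ W : M % n = 0 ∨ n < M % n + T}` and the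
rest `G`; GDC gives `|G| ≤ 12 z2`, BAD gives `|V| ≤ C T (M + T) ^ ε ≤ 19 C z2 (20 X) ^ ε`
(`M ≤ X`, `T ≤ 19 X`). Total `≤ (12 + 19 C 20 ^ ε) X ^ ε z2`.
Take the constant `13 + 19 C 20 ^ ε`. -/
def BLK_stmt : Prop :=
  ∀ ε : ℝ, 0 < ε → ∃ C : ℝ, 0 < C ∧ ∀ k M y : ℕ, Odd k → 3 ≤ k → 1 ≤ y →
    (((SS k M).filter (fun n => y ≤ n ∧ n < 2 * y)).card : ℝ) ≤
      C * XX k M ^ ε * (XX k M / y) ^ (2 / 3 : ℝ)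

/-- GLG (short). Uses: nothing.
Proof. `log x ≤ x ^ ε / ε` (`Real.log_le_rpow_div`), `1 ≤ x ^ ε`; `C = 1 + 1/(ε log 2)`. -/
def GLG_stmt : Prop :=
  ∀ ε : ℝ, 0 < ε → ∃ C : ℝ, 0 < C ∧ ∀ x : ℝ, 1 ≤ x → 1 + Real.logb 2 x ≤ C * x ^ ε

/-- MAI (medium). Uses: BLK, GLG, REL.
Proof. `C₁` from BLK with `ε/2`, `C₂` from GLG with `ε/2`; `X = XX k M`. If `M = 0`,
`SS k M = ∅` and both claims are `0 ≤ _`. Let `M ≥ 1`, so `X ≥ 1`. By REL every `n ∈ SS k M`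
has `n ^ 2 < X`, so `n < √X`; put `I = ⌊log₂ √X⌋₊ + 1`. Then `Nat.log 2 n < I` for `n ∈ SS k M`,
and `(2 : ℝ) ^ i ≤ √X` for `i < I`. With `W i = (SS k M).filter (2 ^ i ≤ n ∧ n < 2 * 2 ^ i)`,
every `n ∈ SS k M` lies in `W (Nat.log 2 n)`, so `|SS k M| ≤ ∑_{i<I} |W i|` and
`∑_{n ∈ SS} n ≤ ∑_{i<I} ∑_{n ∈ W i} n` (`Finset.card_biUnion_le`, `Finset.sum_biUnion_le`-type or
`Finset.sum_fiberwise_of_maps_to`). With `y = 2 ^ i`: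
`|W i| ≤ y` and `|W i| ≤ C₁ X ^ (ε/2) (X/y) ^ (2/3)`; if `y ≤ X ^ (2/5)` use the first, otherwise
`(X/y) ^ (2/3) ≤ (X ^ (3/5)) ^ (2/3) = X ^ (2/5)`; so `|W i| ≤ (1 + C₁) X ^ (2/5 + ε/2)`.
`∑_{n ∈ W i} n ≤ 2 y |W i| ≤ 2 C₁ X ^ (ε/2) X ^ (2/3) y ^ (1/3) ≤ 2 C₁ X ^ (5/6 + ε/2)`
(`y ≤ X ^ (1/2)`). Finally `I ≤ 1 + log₂ X ≤ C₂ X ^ (ε/2)`. -/
def MAI_stmt : Prop :=
  ∀ ε : ℝ, 0 < ε → ∃ C : ℝ, 0 < C ∧ ∀ k M : ℕ, Odd k → 3 ≤ k →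
    ((SS k M).card : ℝ) ≤ C * XX k M ^ (2 / 5 + ε) ∧
      ∑ n ∈ SS k M, (n : ℝ) ≤ C * XX k M ^ (5 / 6 + ε)

/-- SMP (medium). Uses: MAI, GLG. Small multipliers contribute little.
Proof. Take `ε = 1/100` in MAI (constant `C`) and in GLG (constant `C₂`). Let `M ≥ 1`,
`3 ≤ k ≤ K ≤ M ^ (1/8)`, `L = log₂ k`; then `1 ≤ L ≤ log₂ M ≤ C₂ M ^ (1/100)` and
`1 ≤ X = M L ≤ C₂ M ^ (101/100)`. For `n ∈ SS k M`,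
`log₂ (k 2 ^ n + 1) ≤ log₂ (2 k 2 ^ n) = 1 + L + n ≤ n + 2 L`. So the inner sum is at most
`C X ^ (253/300) + 2 L C X ^ (41/100) ≤ C' M ^ (e)` with `e = 87/100`
(`253/300 * 101/100 < 87/100`, `1/100 + 41/100 * 101/100 < 87/100`; `C'` depends on `C`, `C₂`).
There are at most `K ≤ M ^ (1/8)` values `k`, so the double sum is `≤ C' M ^ (1/8 + 87/100)
= C' M ^ (199/200) ≤ M / 4` as soon as `M ^ (1/200) ≥ 4 C'`, i.e. for `M ≥ M₀ = ⌈(4 C') ^ 200⌉`. -/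
def SMP_stmt : Prop :=
  ∃ M₀ : ℕ, ∀ M K : ℕ, M₀ ≤ M → (K : ℝ) ≤ (M : ℝ) ^ (1 / 8 : ℝ) →
    ∑ k ∈ (Icc 3 K).filter (fun k => Odd k), ∑ n ∈ SS k M, Real.logb 2 ((k : ℝ) * 2 ^ n + 1) ≤
      (M : ℝ) / 4

/-- LRG (short). Uses: REL.
Proof. `L = log₂ k ≥ log₂ 3 ≥ 1`. `log₂ (k 2 ^ n + 1) ≤ log₂ (2 k 2 ^ n) = 1 + L + n ≤ n + 2 L`.
By REL `n ^ 2 < M L`, so `n ≤ √(M L)`; `k ≤ k 2 ^ n ≤ 2 ^ M` gives `L ≤ M`, so `L ≤ √(M L)`.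
Hence `log₂ (k 2 ^ n + 1) ≤ 3 √(M L) = 3 √M √L`, and times `√κ ≤ √L` gives the claim. -/
def LRG_stmt : Prop :=
  ∀ (k M n : ℕ) (κ : ℝ), Odd k → 3 ≤ k → 1 ≤ n → k * 2 ^ n + 1 ∣ 2 ^ M + 1 → 0 < κ →
    κ ≤ Real.logb 2 k →
    Real.logb 2 ((k : ℝ) * 2 ^ n + 1) * √κ ≤ 3 * √(M : ℝ) * Real.logb 2 k

/-- ODC (medium). Uses: SMP, LRG, and the landed file `Pool.Agent.helper2.Fermat.GapM`
(import it; names in `Pool.Agent.helper2.FermatM`: `ex`, `od`, `prime_factorM`, `one_case`,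
`oddpart_totientM`, `gap_M`; look at the proof of `gap_M`, which is the model for this one).
Proof. Let `F = 2 ^ M + 1` be composite, `M ≥ 24`, `O` the odd part of `φ (F)`. By
`oddpart_totientM`, `O = ∏_{p ∣ F} p ^ (v_p - 1) od p`, so
`log₂ O = ∑_p ((v_p - 1) log₂ p + κ_p)`, `κ_p = log₂ (od p)`, and
`M ≤ log₂ F = ∑_p v_p log₂ p = ∑_p (v_p - 1) log₂ p + ∑_p log₂ p`.
`p = od p * 2 ^ ex p + 1` with `od p` odd, `ex p ≥ 1` (`p` odd and `> 2`). Let `κ₀ = (log₂ M)/8`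
and `K = ⌊M ^ (1/8)⌋₊`. Split the primes `p ∣ F`:
 P1 (`od p = 1`): at most one, with `log₂ p ≤ M/3 + 1` (`one_case`: `ex p = 2 ^ (v₂ M)`, which
   determines `p = 2 ^ ex p + 1`, and `3 ex p ≤ M`);
 PA (`3 ≤ od p ≤ K`): `p ↦ (od p, ex p)` is injective into the index set of the double sum in SMP
   (`1 ≤ ex p`, `ex p ≤ M` by REL or by size), so `∑_{PA} log₂ p ≤ M/4` for `M ≥ M₀`;
 PB (`od p > K`): then `od p > M ^ (1/8)`, `κ_p ≥ κ₀`, so by LRG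
   `log₂ p ≤ 3 √(M/κ₀) κ_p`.
Put `λ = 3 √(M/κ₀)`, which is `≥ 1`. Then
`M ≤ λ ∑_p (v_p - 1) log₂ p + (M/3 + 1) + M/4 + λ ∑_{PB} κ_p ≤ λ log₂ O + 7 M/12 + 1`, and for
`M ≥ 12` this gives `M/3 ≤ λ log₂ O`, i.e.
`log₂ O ≥ (M/3) √κ₀ / (3 √M) = √(M log₂ M) / (9 √8) ≥ √(M log₂ M)/26`, for `M ≥ max(M₀, 24)`.
For `24 ≤ M < M₀`: `gap_M` gives `log₂ O ≥ √M / 4 ≥ √(M log₂ M) / (4 √(log₂ M₀))` (if `M₀ ≥ 2`).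
Take `c = min (1/26) (1/(4 √(log₂ (M₀ + 2))))`. -/
def ODC_stmt : Prop :=
  ∃ c : ℝ, 0 < c ∧ ∀ M : ℕ, 24 ≤ M → ¬ (2 ^ M + 1).Prime →
    c * √((M : ℝ) * Real.logb 2 M) ≤
      Real.logb 2 ((Nat.totient (2 ^ M + 1) /
        2 ^ (Nat.totient (2 ^ M + 1)).factorization 2 : ℕ) : ℝ)

end Pool.Agent.FXM
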